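import Pool.Agent.H34.WB.Stm2
import Pool.Graph.R_pool_sql_team_seeded_63374d34.N282.WB.Cor

/-!
Project WB2: a measure which is smaller on all cylinders is smaller (`S_cle`).
-/

set_option autoImplicit false

open MeasureTheory Filter Topology Set
open Pool.Agent.Results.MP_07c750_an.WalshBakerQuantumLimits
open Pool.Agent.H34.WB

noncomputable section

namespace Pool.Agent.H93.WB

variable {D : ℕ}

/-- the cylinder of a word -/
abbrev cyl (m : ℤ) {n : ℕ} (w : Fin n → Fin D) : Set (ℤ → Fin D) :=
  Pool.Agent.Results.MP_07c750_an.WalshBakerQuantumLimits.cylinder m w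

lemma cyl_ms (m : ℤ) {n : ℕ} (w : Fin n → Fin D) : MeasurableSet (cyl m w) :=
  Pool.Agent.N282.WB.CO_meas m w

lemma cyl_disj (m : ℤ) {n : ℕ} {v w : Fin n → Fin D} (h : v ≠ w) :
    Disjoint (cyl m v) (cyl m w) := by
  rw [Set.disjoint_left]
  intro x hv hw
  refine h (funext fun i => ?_)
  have h1 : x (m + i) = v i := hv i
  have h2 : x (m + i) = w i := hw i
  rw [← h1, ← h2]

/-- a set which only depends on the coordinates in `[m, m + n)` is a union of cylinders -/
lemma le_of_dep {μ ν : Measure (ℤ → Fin D)} [IsFiniteMeasure μ] [IsFiniteMeasure ν] {m : ℤ} {n : ℕ}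
    (h : ∀ w : Fin n → Fin D, μ.real (cyl m w) ≤ ν.real (cyl m w)) {t : Set (ℤ → Fin D)}
    (ht : ∀ x ∈ t, ∀ y, (∀ i : Fin n, y (m + i) = x (m + i)) → y ∈ t) :
    μ.real t ≤ ν.real t := by
  classical
  have key : t = ⋃ w ∈ (Finset.univ.filter fun w : Fin n → Fin D => cyl m w ⊆ t), cyl m w := by
    ext x
    simp only [Set.mem_iUnion, Finset.mem_filter, Finset.mem_univ, true_and, exists_prop]
    constructor
    · intro hx
      refine ⟨fun i => x (m + i), fun y hy => ht x hx y hy, fun i => rfl⟩
    · rintro ⟨w, hw, hx⟩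
      exact hw hx
  have hsum : ∀ (κ : Measure (ℤ → Fin D)) [IsFiniteMeasure κ], κ.real t =
      ∑ w ∈ (Finset.univ.filter fun w : Fin n → Fin D => cyl m w ⊆ t), κ.real (cyl m w) := by
    intro κ _
    conv_lhs => rw [key]
    rw [measureReal_biUnion_finset (fun v _ w _ hvw => cyl_disj m hvw) fun w _ => cyl_ms m w]
  rw [hsum μ, hsum ν]
  exact Finset.sum_le_sum fun w _ => h w

/-- a finite set of integers is in an interval -/
lemma exists_window (s : Finset ℤ) : ∃ (m : ℤ) (n : ℕ), ∀ j ∈ s, m ≤ j ∧ j < m + n := by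
  induction s using Finset.induction_on with
  | empty => exact ⟨0, 0, fun j hj => absurd hj (Finset.notMem_empty j)⟩
  | insert a s _ ih =>
    obtain ⟨m, n, h⟩ := ih
    refine ⟨min m a, ((max (m + n) (a + 1)) - min m a).toNat, fun j hj => ?_⟩
    have hn : (((max (m + n) (a + 1)) - min m a).toNat : ℤ) = (max (m + n) (a + 1)) - min m a := by
      rw [Int.toNat_of_nonneg]
      omega
    rw [hn]
    rcases Finset.mem_insert.1 hj with rfl | hj
    · omega
    · have := h j hj
      omega

/-- the comparison on the algebra of the measurable cylinders -/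
lemma le_cyl {μ ν : Measure (ℤ → Fin D)} [IsFiniteMeasure μ] [IsFiniteMeasure ν]
    (h : ∀ (m : ℤ) (n : ℕ) (w : Fin n → Fin D), μ.real (cyl m w) ≤ ν.real (cyl m w))
    {t : Set (ℤ → Fin D)} (ht : t ∈ measurableCylinders (fun _ : ℤ => Fin D)) :
    μ.real t ≤ ν.real t := by
  obtain ⟨s, S, _, rfl⟩ := (mem_measurableCylinders _).1 ht
  obtain ⟨m, n, hmn⟩ := exists_window s
  refine le_of_dep (h m n) fun x hx y hy => ?_
  have e : s.restrict y = s.restrict x := by
    funext j
    have h1 := hmn j.1 j.2
    have h2 := hy ⟨(j.1 - m).toNat, by omega⟩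
    have h3 : m + (((j.1 - m).toNat : ℕ) : ℤ) = j.1 := by omega
    simp only at h2
    rw [h3] at h2
    exact h2
  change s.restrict y ∈ S
  rw [e]
  exact hx

/-- **Module `S_cle`.** -/
theorem s_cle : S_cle := by
  intro D μ ν hμ hν h
  refine Measure.le_iff.2 fun s hs => ?_
  have hdense : (μ + ν).MeasureDense (measurableCylinders fun _ : ℤ => Fin D) :=
    Measure.MeasureDense.of_generateFrom_isSetAlgebra_finite _ isSetAlgebra_measurableCylinders
      generateFrom_measurableCylinders.symm
  have hreal : μ.real s ≤ ν.real s := by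
    refine le_of_forall_pos_le_add fun ε hε => ?_
    obtain ⟨t, ht, hst⟩ := hdense.approx s hs (measure_ne_top _ _) (ε / 2) (by positivity)
    have h1 : ∀ (κ : Measure (ℤ → Fin D)) [IsFiniteMeasure κ], κ ≤ μ + ν →
        κ.real (symmDiff s t) ≤ ε / 2 := by
      intro κ _ hκ
      have h2 : κ (symmDiff s t) ≤ ENNReal.ofReal (ε / 2) :=
        (Measure.le_iff'.1 hκ _).trans hst.le
      exact ENNReal.toReal_le_of_le_ofReal (by positivity) h2
    have hm : μ.real s ≤ μ.real t + ε / 2 := by
      have h2 : μ.real s ≤ μ.real (t ∪ symmDiff s t) := by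
        refine measureReal_mono fun x hx => ?_
        by_cases hxt : x ∈ t
        · exact Or.inl hxt
        · exact Or.inr (Or.inl ⟨hx, hxt⟩)
      have h3 := measureReal_union_le (μ := μ) t (symmDiff s t)
      have h4 := h1 μ (Measure.le_add_right le_rfl)
      linarith
    have hn : ν.real t ≤ ν.real s + ε / 2 := by
      have h2 : ν.real t ≤ ν.real (s ∪ symmDiff s t) := by
        refine measureReal_mono fun x hx => ?_
        by_cases hxs : x ∈ s
        · exact Or.inl hxs
        · exact Or.inr (Or.inr ⟨hx, hxs⟩)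
      have h3 := measureReal_union_le (μ := ν) s (symmDiff s t)
      have h4 := h1 ν (Measure.le_add_left le_rfl)
      linarith
    have h5 := le_cyl (fun m n w => h m n w) ht
    linarith
  exact (ENNReal.toReal_le_toReal (measure_ne_top _ _) (measure_ne_top _ _)).1 hreal

end Pool.Agent.H93.WB
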