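import Pool.Agent.H34.WB.Stm2
import Pool.Graph.R_pool_sql_team_seeded_63374d34.N282.WB.Cor

/-!
Project WB2: Kolmogorov's extension theorem for a finite alphabet (`S_ext`).
-/

set_option autoImplicit false

open MeasureTheory Filter Topology Set
open Pool.Agent.Results.MP_07c750_an.WalshBakerQuantumLimits
open Pool.Agent.H34.WB

noncomputable section

namespace Pool.Agent.H93.WB

variable {D : ℕ}

/-- the point which shows the word `w` in the window `[-N, N)` -/
def pt [NeZero D] (N : ℕ) (w : Fin (2 * N) → Fin D) : ℤ → Fin D := fun i =>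
  if h : 0 ≤ i + N ∧ i + N < 2 * N then w ⟨(i + N).toNat, by omega⟩ else 0

lemma pt_mem [NeZero D] (N : ℕ) (v w : Fin (2 * N) → Fin D) :
    pt N v ∈ cylinder (-(N : ℤ)) w ↔ v = w := by
  have h : ∀ i : Fin (2 * N), pt N v (-(N : ℤ) + i) = v i := by
    intro i
    unfold pt
    have h1 : 0 ≤ -(N : ℤ) + i + N ∧ -(N : ℤ) + i + N < 2 * N := by
      have := i.2
      omega
    rw [dif_pos h1]
    congr 1
    ext
    show (-(N : ℤ) + i + N).toNat = i
    omega
  constructor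
  · intro hm
    funext i
    rw [← h]
    exact hm i
  · rintro rfl i
    exact h i

/-- the word of length `n` at the place `m` has the law `c n` -/
def Pr (μ : Measure (ℤ → Fin D)) (c : (n : ℕ) → (Fin n → Fin D) → ℝ) (m : ℤ) (n : ℕ) : Prop :=
  ∀ w : Fin n → Fin D, μ.real (cylinder m w) = c n w

section

variable {c : (n : ℕ) → (Fin n → Fin D) → ℝ}

lemma Pr.snoc {μ : Measure (ℤ → Fin D)} [IsProbabilityMeasure μ]
    (hs : ∀ n (w : Fin n → Fin D), ∑ a, c (n + 1) (Fin.snoc w a) = c n w) {m : ℤ} {n : ℕ}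
    (h : Pr μ c m (n + 1)) : Pr μ c m n := by
  intro w
  have h1 := Pool.Agent.N282.WB.CO_snoc μ m n w
  rw [← hs n w]
  refine h1.symm.trans (Finset.sum_congr rfl fun a _ => ?_)
  exact h _

lemma Pr.cons {μ : Measure (ℤ → Fin D)} [IsProbabilityMeasure μ]
    (hs : ∀ n (w : Fin n → Fin D), ∑ a, c (n + 1) (Fin.cons a w) = c n w) {m : ℤ} {n : ℕ}
    (h : Pr μ c m (n + 1)) : Pr μ c (m + 1) n := by
  intro w
  have h1 := Pool.Agent.N282.WB.CO_cons μ m n w
  rw [← hs n w]
  refine h1.symm.trans (Finset.sum_congr rfl fun a _ => ?_)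
  exact h _

lemma Pr.snocs {μ : Measure (ℤ → Fin D)} [IsProbabilityMeasure μ]
    (hs : ∀ n (w : Fin n → Fin D), ∑ a, c (n + 1) (Fin.snoc w a) = c n w) {m : ℤ} {n : ℕ} (k : ℕ)
    (h : Pr μ c m (n + k)) : Pr μ c m n := by
  induction k with
  | zero => exact h
  | succ k ih => exact ih (Pr.snoc hs h)

lemma Pr.conses {μ : Measure (ℤ → Fin D)} [IsProbabilityMeasure μ]
    (hs : ∀ n (w : Fin n → Fin D), ∑ a, c (n + 1) (Fin.cons a w) = c n w) {m : ℤ} {n : ℕ} (k : ℕ)
    (h : Pr μ c m (n + k)) : Pr μ c (m + k) n := by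
  induction k generalizing m with
  | zero => simpa using h
  | succ k ih =>
    have h1 := ih (Pr.cons hs (n := n + k) h)
    have e : m + 1 + (k : ℤ) = m + ((k + 1 : ℕ) : ℤ) := by push_cast; ring
    rwa [e] at h1

lemma sum_one (h0 : ∀ w, c 0 w = 1)
    (hs : ∀ n (w : Fin n → Fin D), ∑ a, c (n + 1) (Fin.snoc w a) = c n w) (n : ℕ) :
    ∑ w, c n w = 1 := by
  induction n with
  | zero => simp [h0]
  | succ n ih =>
    have h1 : ∑ p : Fin D × (Fin n → Fin D), c (n + 1) (Fin.snoc p.2 p.1) = ∑ w, c (n + 1) w :=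
      Fintype.sum_equiv (Fin.snocEquiv (fun _ : Fin (n + 1) => Fin D)) _ _ fun p => rfl
    rw [← h1, Fintype.sum_prod_type, Finset.sum_comm, ← ih]
    exact Finset.sum_congr rfl fun w _ => hs n w

end

/-- the finite approximation -/
def PN [NeZero D] (c : (n : ℕ) → (Fin n → Fin D) → ℝ) (N : ℕ) : Measure (ℤ → Fin D) :=
  ∑ v : Fin (2 * N) → Fin D, ENNReal.ofReal (c (2 * N) v) • Measure.dirac (pt N v)

lemma cyl_meas (m : ℤ) {n : ℕ} (w : Fin n → Fin D) : MeasurableSet (cylinder m w) :=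
  Pool.Agent.N282.WB.CO_meas m w

lemma PN_prob [NeZero D] {c : (n : ℕ) → (Fin n → Fin D) → ℝ} (hc : ∀ n w, 0 ≤ c n w)
    (h0 : ∀ w, c 0 w = 1)
    (hs : ∀ n (w : Fin n → Fin D), ∑ a, c (n + 1) (Fin.snoc w a) = c n w) (N : ℕ) :
    IsProbabilityMeasure (PN c N) := by
  refine ⟨?_⟩
  unfold PN
  rw [Measure.finsetSum_apply]
  simp only [Measure.smul_apply, measure_univ, smul_eq_mul, mul_one]
  rw [← ENNReal.ofReal_sum_of_nonneg fun v _ => hc _ v, sum_one h0 hs, ENNReal.ofReal_one]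

lemma PN_Pr [NeZero D] {c : (n : ℕ) → (Fin n → Fin D) → ℝ} (hc : ∀ n w, 0 ≤ c n w) (N : ℕ) :
    Pr (PN c N) c (-(N : ℤ)) (2 * N) := by
  classical
  intro w
  unfold PN Measure.real
  rw [Measure.finsetSum_apply]
  simp only [Measure.smul_apply, smul_eq_mul, Measure.dirac_apply' _ (cyl_meas _ w), Set.indicator_apply,
    pt_mem, Pi.one_apply, mul_ite, mul_one, mul_zero, Finset.sum_ite_eq', Finset.mem_univ, if_true]
  exact ENNReal.toReal_ofReal (hc _ w)

lemma cyl_clopen (m : ℤ) {n : ℕ} (w : Fin n → Fin D) : IsClopen (cylinder m w) := by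
  have : cylinder m w = ⋂ i : Fin n, (fun x : ℤ → Fin D => x (m + i)) ⁻¹' {w i} := by
    ext x
    rw [Set.mem_iInter]
    exact Iff.rfl
  rw [this]
  exact isClopen_iInter_of_finite fun i =>
    (isClopen_discrete {w i}).preimage (continuous_apply _)

theorem s_ext : S_ext := by
  intro D _ c hc h0 hs hs'
  let P : ℕ → ProbabilityMeasure (ℤ → Fin D) := fun N => ⟨PN c N, PN_prob hc h0 hs N⟩
  let U : Ultrafilter ℕ := hyperfilter ℕ
  obtain ⟨μ, hμ⟩ : ∃ μ : ProbabilityMeasure (ℤ → Fin D), Tendsto P U (𝓝 μ) :=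
    ⟨(U.map P).lim, (U.map P).le_nhds_lim⟩
  refine ⟨μ, inferInstance, fun m n w => ?_⟩
  have h1 : Tendsto (fun N => (P N : Measure (ℤ → Fin D)) (cylinder m w)) U
      (𝓝 ((μ : Measure (ℤ → Fin D)) (cylinder m w))) :=
    ProbabilityMeasure.tendsto_measure_of_null_frontier_of_tendsto' hμ
      (by rw [(cyl_clopen m w).frontier_eq, measure_empty])
  have h2 : Tendsto (fun N => (P N : Measure (ℤ → Fin D)).real (cylinder m w)) U
      (𝓝 ((μ : Measure (ℤ → Fin D)).real (cylinder m w))) :=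
    (ENNReal.tendsto_toReal (measure_ne_top _ _)).comp h1
  have h3 : ∀ᶠ N in (U : Filter ℕ), c n w = (P N : Measure (ℤ → Fin D)).real (cylinder m w) := by
    have h4 : ∀ᶠ N : ℕ in atTop, c n w = (P N : Measure (ℤ → Fin D)).real (cylinder m w) := by
      filter_upwards [eventually_ge_atTop (m.natAbs + n)] with N hN
      have h5 := PN_Pr (D := D) hc N
      have := PN_prob (D := D) hc h0 hs N
      obtain ⟨a, ha⟩ : ∃ a : ℕ, (a : ℤ) = m + N := ⟨(m + N).toNat, by omega⟩
      obtain ⟨b, hb⟩ : ∃ b : ℕ, (b : ℤ) = N - m - n := ⟨(N - m - n).toNat, by omega⟩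
      have e : 2 * N = n + b + a := by omega
      rw [e] at h5
      have h6 := Pr.snocs hs b (Pr.conses hs' a h5)
      have e2 : -(N : ℤ) + a = m := by omega
      rw [e2] at h6
      exact (h6 w).symm
    refine Filter.Eventually.filter_mono ?_ h4
    rw [← Nat.cofinite_eq_atTop]
    exact hyperfilter_le_cofinite
  have h7 : Tendsto (fun N => (P N : Measure (ℤ → Fin D)).real (cylinder m w)) U (𝓝 (c n w)) :=
    tendsto_const_nhds.congr' h3
  exact tendsto_nhds_unique h2 h7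

end Pool.Agent.H93.WB
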