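import Pool.Agent.H34.WB.Law

/-!
Project WB: the zero entropy part gives at least its share of the uniform measure (`S_scar`).
-/

set_option autoImplicit false

open MeasureTheory Filter Topology Set
open Pool.Agent.Results.MP_07c750_an.WalshBakerQuantumLimits
open Pool.Agent.H34.WB

noncomputable section

namespace Pool.Agent.H93.WB

variable {D : ℕ}

/-- the `j`-th block of a word -/
def blk {N l : ℕ} (j : Fin N) (w : Fin (N * l) → Fin D) : Fin l → Fin D :=
  fun i => w (finProdFinEquiv (j, i))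

lemma blk_cyl {N l : ℕ} (j : Fin N) (c : Fin l → Fin D) (x : ℤ → Fin D) :
    blk j (word (N * l) x) = c ↔ x ∈ cylinder ((l * (j : ℕ) : ℕ) : ℤ) c := by
  have h : ∀ i : Fin l, blk j (word (N * l) x) i = x (((l * (j : ℕ) : ℕ) : ℤ) + i) := by
    intro i
    unfold blk word
    congr 1
    rw [finProdFinEquiv_apply_val]
    push_cast
    ring
  constructor
  · intro e i
    rw [← h, e]
  · intro e
    funext i
    rw [h]
    exact e i

/-- the number of blocks equal to `c` -/
def num {N l : ℕ} (c : Fin l → Fin D) (w : Fin (N * l) → Fin D) : ℕ :=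
  (Finset.univ.filter fun j : Fin N => blk j w = c).card

lemma sum_exp {N l : ℕ} (c : Fin l → Fin D) (z : ℝ) :
    ∑ w : Fin (N * l) → Fin D, z ^ num c w = ((D : ℝ) ^ l - 1 + z) ^ N := by
  have h1 : ∀ w : Fin (N * l) → Fin D, z ^ num c w = ∏ j : Fin N, if blk j w = c then z else 1 := by
    intro w
    rw [Finset.prod_ite, Finset.prod_const, Finset.prod_const_one, mul_one, num]
  let e : (Fin (N * l) → Fin D) ≃ (Fin N → Fin l → Fin D) :=
    (Equiv.arrowCongr finProdFinEquiv.symm (Equiv.refl _)).trans (Equiv.curry _ _ _)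
  have he : ∀ w j, e w j = blk j w := fun w j => rfl
  rw [Finset.sum_congr rfl fun w _ => h1 w]
  have h3 : ∑ w : Fin (N * l) → Fin D, ∏ j : Fin N, (if blk j w = c then z else 1) =
      ∑ v : Fin N → (Fin l → Fin D), ∏ j, (if v j = c then z else 1) :=
    Fintype.sum_equiv e _ _ fun w => Finset.prod_congr rfl fun j _ => by rw [he]
  have h4 : (∑ u : Fin l → Fin D, if u = c then z else 1) ^ N =
      ∑ v : Fin N → (Fin l → Fin D), ∏ j, (if v j = c then z else 1) :=
    Fintype.sum_pow (fun u : Fin l → Fin D => if u = c then z else 1) N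
  calc ∑ w : Fin (N * l) → Fin D, ∏ j : Fin N, (if blk j w = c then z else 1)
      = ∑ v : Fin N → (Fin l → Fin D), ∏ j, (if v j = c then z else 1) := h3
    _ = (∑ u : Fin l → Fin D, if u = c then z else 1) ^ N := h4.symm
    _ = _ := by
        congr 1
        have h2 : ∀ u : Fin l → Fin D, (if u = c then z else 1) = 1 + if u = c then z - 1 else 0 := by
          intro u; split_ifs <;> ring
        rw [Finset.sum_congr rfl fun u _ => h2 u, Finset.sum_add_distrib, Finset.sum_ite_eq' Finset.univ c]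
        simp only [Finset.sum_const, Finset.card_univ, Fintype.card_fun, Fintype.card_fin, Finset.mem_univ,
          if_true, nsmul_eq_mul, mul_one]
        push_cast
        ring

/-- the words with few blocks equal to `c` -/
def few {l : ℕ} (N : ℕ) (c : Fin l → Fin D) (a : ℝ) : Finset (Fin (N * l) → Fin D) :=
  letI := Classical.decPred fun w : Fin (N * l) → Fin D => (num c w : ℝ) ≤ a * N
  Finset.univ.filter fun w => (num c w : ℝ) ≤ a * N

lemma mem_few {l N : ℕ} {c : Fin l → Fin D} {a : ℝ} {w : Fin (N * l) → Fin D} :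
    w ∈ few N c a ↔ (num c w : ℝ) ≤ a * N := by
  unfold few
  rw [Finset.mem_filter]
  simp

lemma exp_neg_le {δ : ℝ} (h : 0 ≤ δ) : Real.exp (-δ) ≤ 1 - δ + δ ^ 2 / 2 := by
  rw [Real.exp_neg]
  have h1 := Real.quadratic_le_exp_of_nonneg h
  rw [inv_le_comm₀ (Real.exp_pos _) (by nlinarith [sq_nonneg (δ - 1)])]
  refine le_trans ?_ h1
  rw [inv_le_iff_one_le_mul₀ (by nlinarith [sq_nonneg (δ - 1)])]
  nlinarith [sq_nonneg (δ ^ 2)]

lemma card_few (hD : 2 ≤ D) {l : ℕ} (N : ℕ) (c : Fin l → Fin D) {δ : ℝ} (hδ : 0 < δ) :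
    ((few N c (1 / (D : ℝ) ^ l - δ)).card : ℝ) ≤
      ((D : ℝ) ^ (N * l)) * Real.exp (-(δ ^ 2 / 2 * N)) := by
  have hD1 : (1 : ℝ) ≤ D := by exact_mod_cast (by omega : 1 ≤ D)
  have hDl : (1 : ℝ) ≤ (D : ℝ) ^ l := one_le_pow₀ hD1
  obtain ⟨p, hp⟩ : ∃ p : ℝ, p = 1 / (D : ℝ) ^ l := ⟨_, rfl⟩
  have hp0 : 0 < p := by rw [hp]; positivity
  have hp1 : p ≤ 1 := by rw [hp, div_le_one (by positivity)]; exact hDl
  rw [← hp]
  have hN : (0 : ℝ) ≤ N := Nat.cast_nonneg N
  have h1 : ((few N c (p - δ)).card : ℝ) * Real.exp (-(δ * ((p - δ) * N))) ≤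
      ((D : ℝ) ^ l - 1 + Real.exp (-δ)) ^ N := by
    rw [← sum_exp, ← nsmul_eq_mul, ← Finset.sum_const]
    refine (Finset.sum_le_sum (g := fun w => Real.exp (-δ) ^ num c w) fun w hw => ?_).trans
      (Finset.sum_le_univ_sum_of_nonneg fun w => pow_nonneg (Real.exp_pos _).le _)
    rw [← Real.exp_nat_mul]
    refine Real.exp_le_exp.2 ?_
    have := mul_le_mul_of_nonneg_left (mem_few.1 hw) hδ.le
    linarith
  have h2 : (D : ℝ) ^ l - 1 + Real.exp (-δ) ≤ (D : ℝ) ^ l * Real.exp (-(p * (δ - δ ^ 2 / 2))) := by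
    have h3 : (D : ℝ) ^ l - 1 + Real.exp (-δ) ≤ (D : ℝ) ^ l * (1 - p * (δ - δ ^ 2 / 2)) := by
      have h4 : (D : ℝ) ^ l * p = 1 := by rw [hp]; field_simp
      have h5 := exp_neg_le hδ.le
      have h6 : (D : ℝ) ^ l * (1 - p * (δ - δ ^ 2 / 2)) = (D : ℝ) ^ l - ((D : ℝ) ^ l * p) * (δ - δ ^ 2 / 2) := by
        ring
      rw [h6, h4]
      linarith
    refine h3.trans (mul_le_mul_of_nonneg_left ?_ (by positivity))
    have := Real.add_one_le_exp (-(p * (δ - δ ^ 2 / 2)))
    linarith
  have h3 : 0 ≤ (D : ℝ) ^ l - 1 + Real.exp (-δ) := by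
    have := Real.exp_pos (-δ)
    linarith
  have h4 := h1.trans (pow_le_pow_left₀ h3 h2 N)
  rw [mul_pow, ← pow_mul, ← Real.exp_nat_mul, mul_comm l N, Real.exp_neg (δ * ((p - δ) * N)),
    ← div_eq_mul_inv, div_le_iff₀ (Real.exp_pos _), mul_assoc, ← Real.exp_add] at h4
  refine h4.trans (mul_le_mul_of_nonneg_left (Real.exp_le_exp.2 ?_) (by positivity))
  have h5 : p * δ ^ 2 ≤ δ ^ 2 := by nlinarith [sq_nonneg δ]
  nlinarith

/-- the mean number of blocks -/
lemma mean_num (μ : Measure (ℤ → Fin D)) [IsProbabilityMeasure μ] (hI : Inv μ) {l : ℕ} (N : ℕ)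
    (c : Fin l → Fin D) :
    ∑ w : Fin (N * l) → Fin D, μ.real (cylinder 0 w) * num c w = N * μ.real (cylinder 0 c) := by
  have h1 : ∀ w : Fin (N * l) → Fin D, μ.real (cylinder 0 w) * num c w =
      ∑ j : Fin N, if blk j w = c then μ.real (cylinder 0 w) else 0 := by
    intro w
    rw [← Finset.sum_filter, Finset.sum_const, nsmul_eq_mul, mul_comm]
    rfl
  rw [Finset.sum_congr rfl fun w _ => h1 w, Finset.sum_comm]
  have h2 : ∀ j : Fin N, (∑ w : Fin (N * l) → Fin D, if blk j w = c then μ.real (cylinder 0 w) else 0) =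
      μ.real (cylinder 0 c) := by
    intro j
    rw [← Finset.sum_filter, ← real_mem, ← hI ((l * (j : ℕ) : ℕ) : ℤ) l c]
    congr 1
    ext x
    simp only [Finset.mem_filter, Finset.mem_univ, true_and, Set.mem_ofPred_eq]
    exact blk_cyl j c x
  rw [Finset.sum_congr rfl fun j _ => h2 j, Finset.sum_const, Finset.card_univ, Fintype.card_fin,
    nsmul_eq_mul]

lemma markov (μ : Measure (ℤ → Fin D)) [IsProbabilityMeasure μ] (hI : Inv μ) {l : ℕ} (N : ℕ) (hN : 0 < N)
    (c : Fin l → Fin D) {a : ℝ} :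
    a * (1 - ∑ w ∈ few N c a, μ.real (cylinder 0 w)) ≤ μ.real (cylinder 0 c) := by
  classical
  have hN' : (0 : ℝ) < N := by exact_mod_cast hN
  have htot : ∑ w : Fin (N * l) → Fin D, μ.real (cylinder 0 w) = 1 := by
    rw [← real_mem]
    simp
  have h1 : ∑ w ∈ (few N c a)ᶜ, μ.real (cylinder 0 w) * (a * N) ≤
      ∑ w : Fin (N * l) → Fin D, μ.real (cylinder 0 w) * num c w := by
    refine (Finset.sum_le_sum (g := fun w => μ.real (cylinder 0 w) * num c w) fun w hw => ?_).trans
      (Finset.sum_le_univ_sum_of_nonneg fun w => mul_nonneg measureReal_nonneg (Nat.cast_nonneg _))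
    refine mul_le_mul_of_nonneg_left ?_ measureReal_nonneg
    have := (Finset.mem_compl.1 hw)
    rw [mem_few, not_le] at this
    exact this.le
  rw [mean_num μ hI, ← Finset.sum_mul] at h1
  have h2 : ∑ w ∈ (few N c a)ᶜ, μ.real (cylinder 0 w) = 1 - ∑ w ∈ few N c a, μ.real (cylinder 0 w) := by
    rw [← htot, ← Finset.sum_compl_add_sum (few N c a)]
    ring
  rw [h2] at h1
  have h3 : N * (a * (1 - ∑ w ∈ few N c a, μ.real (cylinder 0 w))) ≤ N * μ.real (cylinder 0 c) := by
    linarith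
  exact le_of_mul_le_mul_left h3 hN'

theorem s_scar : S_scar := by
  intro D hD μ hμ hU hI m l c
  have hD1 : (1 : ℝ) ≤ D := by exact_mod_cast (by omega : 1 ≤ D)
  have hDl : (1 : ℝ) ≤ (D : ℝ) ^ l := one_le_pow₀ hD1
  rw [hI m l c]
  rcases Nat.eq_zero_or_pos l with h0 | hl
  · subst h0
    have : cylinder 0 c = Set.univ := by
      ext x
      simp only [Set.mem_univ, iff_true]
      intro i
      exact i.elim0
    rw [this, pow_zero, div_one, mul_one]
    simp only [probReal_univ]
    exact measureReal_le_one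
  obtain ⟨p, hp⟩ : ∃ p : ℝ, p = 1 / (D : ℝ) ^ l := ⟨_, rfl⟩
  have hp0 : 0 < p := by rw [hp]; positivity
  rw [← hp]
  have hl' : (0 : ℝ) < l := by exact_mod_cast hl
  -- for every `δ`
  have key : ∀ δ : ℝ, 0 < δ → δ < p → μ.real {x | localEntropy μ x ≤ 0} * (p - δ) ≤ μ.real (cylinder 0 c) := by
    intro δ hδ hδp
    obtain ⟨s, hs⟩ : ∃ s : ℝ, s = δ ^ 2 / (4 * l) := ⟨_, rfl⟩
    have hs0 : 0 < s := by rw [hs]; positivity
    have hsl : s * l = δ ^ 2 / 4 := by rw [hs]; field_simp
    let G : ℕ → Set (ℤ → Fin D) := fun k => {x | ∀ n, k ≤ n → word n x ∈ big μ s n}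
    have hG : Monotone G := fun a b hab x hx n hn => hx n (hab.trans hn)
    have hlim : Tendsto (fun k => μ.real (G k)) atTop (𝓝 (μ.real (⋃ k, G k))) := by
      have := tendsto_measure_iUnion_atTop (μ := μ) hG
      exact (ENNReal.tendsto_toReal (measure_ne_top μ _)).comp this
    have hle : μ.real {x | localEntropy μ x ≤ 0} ≤ μ.real (⋃ k, G k) := by
      refine ENNReal.toReal_mono (measure_ne_top μ _) (measure_mono_ae ?_)
      filter_upwards [ae_big μ s] with x hx hs'
      refine Set.mem_iUnion.2 (hx ?_)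
      have h2 : localEntropy μ x ≤ 0 := hs'
      refine lt_of_le_of_lt h2 ?_
      rw [← EReal.coe_zero, EReal.coe_lt_coe_iff]
      exact hs0
    have hk : ∀ k, μ.real (G k) * (p - δ) ≤ μ.real (cylinder 0 c) := by
      intro k
      have h1 : ∀ N, k + 1 ≤ N → (μ.real (G k) - Real.sqrt (Real.exp (-(δ ^ 2 / 4)) ^ N)) * (p - δ) ≤
          μ.real (cylinder 0 c) := by
        intro N hN
        have hNl : k ≤ N * l := by nlinarith
        have h2 := hU (N * l) (big μ s (N * l)) (few N c (p - δ))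
        have h3 : μ.real (G k) ≤ ∑ w ∈ big μ s (N * l), μ.real (cylinder 0 w) := by
          rw [← real_mem]
          exact measureReal_mono (fun x hx => hx (N * l) hNl)
        have h5 : Real.sqrt (((big μ s (N * l)).card : ℝ) * (few N c (p - δ)).card / (D : ℝ) ^ (N * l)) ≤
            Real.sqrt (Real.exp (-(δ ^ 2 / 4)) ^ N) := by
          refine Real.sqrt_le_sqrt ?_
          rw [div_le_iff₀ (by positivity), ← Real.exp_nat_mul]
          have a1 := card_big μ s (N * l)
          have a2 := card_few hD N c hδ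
          rw [← hp] at a2
          calc ((big μ s (N * l)).card : ℝ) * (few N c (p - δ)).card
              ≤ Real.exp (s * (N * l : ℕ)) * ((D : ℝ) ^ (N * l) * Real.exp (-(δ ^ 2 / 2 * N))) :=
                mul_le_mul a1 a2 (Nat.cast_nonneg _) (Real.exp_pos _).le
            _ = (Real.exp (s * (N * l : ℕ)) * Real.exp (-(δ ^ 2 / 2 * N))) * (D : ℝ) ^ (N * l) := by ring
            _ = _ := by
                rw [← Real.exp_add]
                congr 2
                push_cast
                have : s * (N * l) = δ ^ 2 / 4 * N := by rw [← hsl]; ring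
                rw [this]
                ring
        have h6 := markov μ hI N (by omega) c (a := p - δ)
        have h7 : (μ.real (G k) - Real.sqrt (Real.exp (-(δ ^ 2 / 4)) ^ N)) ≤
            1 - ∑ w ∈ few N c (p - δ), μ.real (cylinder 0 w) := by linarith
        have h8 := mul_le_mul_of_nonneg_right h7 (by linarith : 0 ≤ p - δ)
        linarith
      have h6 : Tendsto (fun N : ℕ => (μ.real (G k) - Real.sqrt (Real.exp (-(δ ^ 2 / 4)) ^ N)) * (p - δ)) atTop
          (𝓝 ((μ.real (G k) - Real.sqrt 0) * (p - δ))) := by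
        refine Tendsto.mul_const _ (Tendsto.const_sub _ ((Real.continuous_sqrt.tendsto _).comp ?_))
        refine tendsto_pow_atTop_nhds_zero_of_lt_one (Real.exp_pos _).le (Real.exp_lt_one_iff.2 ?_)
        have : 0 < δ ^ 2 := by positivity
        linarith
      rw [Real.sqrt_zero, sub_zero] at h6
      exact le_of_tendsto h6 (eventually_atTop.2 ⟨k + 1, h1⟩)
    have h8 := le_of_tendsto' (hlim.mul_const (p - δ)) hk
    exact (mul_le_mul_of_nonneg_right hle (by linarith)).trans h8
  have h9 : Tendsto (fun δ : ℝ => μ.real {x | localEntropy μ x ≤ 0} * (p - δ)) (𝓝[>] 0)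
      (𝓝 (μ.real {x | localEntropy μ x ≤ 0} * (p - 0))) := by
    refine Tendsto.mono_left ?_ nhdsWithin_le_nhds
    exact (tendsto_const_nhds.sub tendsto_id).const_mul _
  rw [sub_zero] at h9
  refine le_of_tendsto h9 ?_
  filter_upwards [Ioo_mem_nhdsGT hp0] with δ hδ
  exact key δ hδ.1 hδ.2

end Pool.Agent.H93.WB
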